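import Pool.Agent.Y522.FA.Stm

/-!
# Project FA: Stokes in a chart
-/

set_option autoImplicit false

open Set Filter Topology Metric Function MeasureTheory
open scoped Manifold ContDiff Real NNReal

noncomputable section

namespace Pool.Agent.Y165.FA

open Pool.Agent.Y522.FA

section

variable {M : Type} [MetricSpace M] [MeasurableSpace M] {μ : Measure M} {b : Circ → M}

theorem psi_mem (S : Surf M μ b) (i : Fin S.N) {z : E2} (hz : z ∈ S.T i) :
    S.ψ i z ∈ S.U i ∧ S.φ i (S.ψ i z) = z := by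
  obtain ⟨x, hx, rfl⟩ := hz
  rw [S.left i x hx]
  exact ⟨hx, rfl⟩

theorem T_meas (S : Surf M μ b) (i : Fin S.N) : MeasurableSet (S.T i) := by
  obtain ⟨O, hO, hT⟩ := S.openT i
  rw [Surf.T, hT]
  exact hO.measurableSet.inter (isClosed_le continuous_const (by fun_prop)).measurableSet

/-- interior points of the image of a chart -/
theorem T_nhds (S : Surf M μ b) (i : Fin S.N) {z : E2} (hz : z ∈ S.T i) (h0 : 0 < z 0) :
    S.T i ∈ 𝓝 z := by
  obtain ⟨O, hO, hT⟩ := S.openT i
  rw [Surf.T, hT] at hz ⊢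
  have h1 : IsOpen {z : E2 | 0 < z 0} := isOpen_lt continuous_const (by fun_prop)
  refine Filter.mem_of_superset ((hO.inter h1).mem_nhds ⟨hz.1, h0⟩) ?_
  rintro w ⟨hw1, hw2⟩
  exact ⟨hw1, le_of_lt (show (0 : ℝ) < w 0 from hw2)⟩

theorem image_meas [BorelSpace M] (S : Surf M μ b) (i : Fin S.N) {B : Set M}
    (hB : MeasurableSet B) (hBU : B ⊆ S.U i) : MeasurableSet (S.φ i '' B) := by
  have hc : Continuous ((S.T i).domRestrict (S.ψ i)) := continuousOn_iff_continuous_domRestrict.1 (S.contψ i)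
  have h1 : MeasurableSet (((S.T i).domRestrict (S.ψ i)) ⁻¹' B) := hc.measurable hB
  have h2 := (T_meas S i).subtype_image h1
  convert h2 using 1
  ext z
  constructor
  · rintro ⟨x, hx, rfl⟩
    refine ⟨⟨S.φ i x, x, hBU hx, rfl⟩, ?_, rfl⟩
    show S.ψ i (S.φ i x) ∈ B
    rw [S.left i x (hBU hx)]
    exact hx
  · rintro ⟨⟨z, hz⟩, h3, rfl⟩
    have h4 : S.ψ i z ∈ B := h3
    exact ⟨S.ψ i z, h4, (psi_mem S i hz).2⟩

theorem null_image [BorelSpace M] (S : Surf M μ b) (i : Fin S.N) {B : Set M} (hBU : B ⊆ S.U i)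
    (h0 : μ B = 0) : volume (S.φ i '' B) = 0 := by
  obtain ⟨B', hBB', hB', h0'⟩ := exists_measurable_superset_of_null h0
  have hm : MeasurableSet (B' ∩ S.U i) := hB'.inter (S.openU i).measurableSet
  have h1 : μ (B' ∩ S.U i) = 0 := measure_mono_null inter_subset_left h0'
  have h2 := S.area i (B' ∩ S.U i) inter_subset_right hm
  rw [h1] at h2
  have hs : MeasurableSet (S.φ i '' (B' ∩ S.U i)) := image_meas S i hm inter_subset_right
  have hsT : S.φ i '' (B' ∩ S.U i) ⊆ S.T i := image_mono inter_subset_right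
  have hcA : ContinuousOn (fun z => ENNReal.ofReal (S.A i z).det) (S.φ i '' (B' ∩ S.U i)) :=
    (ENNReal.continuous_ofReal.comp ContinuousLinearMap.continuous_det).comp_continuousOn
      ((S.contA i).mono hsT)
  have h3 := (lintegral_eq_zero_iff' (hcA.aemeasurable hs)).1 h2.symm
  rw [Filter.EventuallyEq, ae_restrict_iff' hs] at h3
  have h4 : ∀ᵐ z : E2, z ∉ S.φ i '' (B' ∩ S.U i) := by
    filter_upwards [h3] with z hz hzs
    have h5 := hz hzs
    have h6 := S.detA i z (hsT hzs)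
    simp only [Pi.zero_apply, ENNReal.ofReal_eq_zero] at h5
    linarith
  refine measure_mono_null (image_mono (show B ⊆ B' ∩ S.U i from fun x hx => ⟨hBB' hx, hBU hx⟩)) ?_
  rw [measure_eq_zero_iff_ae_notMem]
  exact h4

/-- almost everywhere statements on the surface, seen in a chart -/
theorem ae_chart [BorelSpace M] (S : Surf M μ b) (i : Fin S.N) {P : M → Prop} (h : ∀ᵐ x ∂μ, P x) :
    ∀ᵐ z : E2, z ∈ S.T i → P (S.ψ i z) := by
  have h1 : μ ({x | ¬ P x} ∩ S.U i) = 0 := measure_mono_null inter_subset_left (ae_iff.1 h)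
  have h2 := null_image S i (B := {x | ¬ P x} ∩ S.U i) inter_subset_right h1
  rw [measure_eq_zero_iff_ae_notMem] at h2
  filter_upwards [h2] with z hz hzT
  by_contra hP
  exact hz ⟨S.ψ i z, ⟨hP, (psi_mem S i hzT).1⟩, (psi_mem S i hzT).2⟩

end

theorem stChart (hI : StInt) (hL : StLip) (hR : StRad) (hJ : StJac) (hE : StEStokes) : StChart := by
  intro M _ _ _ _ μ b S i F g K K' hF hg C hC hCU hFC
  obtain ⟨hJ1, hJ2⟩ := hJ M μ b S F g K K' hF hg
  have hRF := hR M μ b S F K hF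
  have hRg := hR M μ b S g K' hg
  obtain ⟨O, hO, hT⟩ := S.openT i
  have hT' : S.T i = O ∩ {z | 0 ≤ z 0} := hT
  -- the integral over `U i`
  have e1 : ∫ x, S.jac F g x ∂μ = ∫ x in S.U i, S.jac F g x ∂μ := by
    symm
    refine setIntegral_eq_integral_of_ae_compl_eq_zero ?_
    filter_upwards [hRF, hRg] with x hx1 hx2 hxU
    obtain ⟨j, hj⟩ := S.cover x
    rw [hJ1 x hx1 hx2 j hj]
    have hxC : x ∉ C := fun h => hxU (hCU h)
    have hz : S.φ j x ∈ S.T j := ⟨x, hj, rfl⟩
    have hz0 := (hx1 j hj).1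
    have h1 : S.dc j F x = 0 := by
      unfold Surf.dc
      have h2 : (fun z => F (S.ψ j z)) =ᶠ[𝓝 (S.φ j x)] fun _ => 0 := by
        have h3 : ContinuousAt (S.ψ j) (S.φ j x) := (S.contψ j).continuousAt (T_nhds S j hz hz0)
        have h4 : Cᶜ ∈ 𝓝 (S.ψ j (S.φ j x)) := by
          rw [S.left j x hj]
          exact hC.isClosed.isOpen_compl.mem_nhds hxC
        filter_upwards [h3 h4] with w hw
        exact hFC _ hw
      rw [h2.fderiv_eq]
      simp
    rw [h1]
    simp [cr]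
  rw [e1, hI M μ b S i (S.jac F g) hJ2.aestronglyMeasurable]
  -- the integrand in the chart
  set u : E2 → ℝ := (S.T i).indicator (fun z => F (S.ψ i z)) with hu
  set v : E2 → ℝ := fun z => g (S.ψ i z) with hv
  have e2 : ∫ z in S.T i, S.jac F g (S.ψ i z) * (S.A i z).det =
      ∫ z in S.T i, cr (fderiv ℝ u z) (fderiv ℝ v z) := by
    refine setIntegral_congr_ae (T_meas S i) ?_
    filter_upwards [ae_chart S i hRF, ae_chart S i hRg] with z h1 h2 hz
    obtain ⟨hm, he⟩ := psi_mem S i hz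
    have h3 := h1 hz
    have h4 := h2 hz
    have hz0 : 0 < z 0 := by
      have h5 := (h3 i hm).1
      rw [he] at h5
      exact h5
    rw [hJ1 _ h3 h4 i hm, he]
    have hd : (S.A i z).det ≠ 0 := (S.detA i z hz).ne'
    rw [div_mul_cancel₀ _ hd]
    unfold Surf.dc
    rw [he]
    have h5 : u =ᶠ[𝓝 z] fun z => F (S.ψ i z) := by
      filter_upwards [T_nhds S i hz hz0] with w hw
      rw [hu, indicator_of_mem hw]
    rw [h5.fderiv_eq]
  rw [e2, hT']
  refine hE O (S.φ i '' C) u v hO (hC.image_of_continuousOn ((S.contφ i).mono hCU)) ?_ ?_ ?_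
  · intro z hz
    have h1 : z ∈ S.T i := image_mono hCU hz
    rw [hT'] at h1
    exact h1.1
  · intro z hz
    by_cases hzT : z ∈ S.T i
    · rw [hu, indicator_of_mem hzT]
      refine hFC _ fun h => hz ⟨S.ψ i z, h, (psi_mem S i hzT).2⟩
    · rw [hu, indicator_of_notMem hzT]
  · intro z hz hz0
    have hzT : z ∈ S.T i := by
      rw [hT']
      exact ⟨hz, hz0⟩
    obtain ⟨C1, δ1, hδ1, h1⟩ := (hL M μ b S F K hF).1 i z hzT
    obtain ⟨C2, δ2, hδ2, h2⟩ := (hL M μ b S g K' hg).1 i z hzT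
    rw [← hT']
    refine ⟨max C1 C2, min δ1 δ2, lt_min hδ1 hδ2, ?_, ?_⟩
    · intro x hx y hy
      have h3 := (h1.weaken (le_max_left C1 C2)) ⟨hx.1, ball_subset_ball (min_le_left _ _) hx.2⟩
        ⟨hy.1, ball_subset_ball (min_le_left _ _) hy.2⟩
      rw [hu, indicator_of_mem hx.1, indicator_of_mem hy.1]
      exact h3
    · exact (h2.weaken (le_max_right C1 C2)).mono
        (inter_subset_inter_right _ (ball_subset_ball (min_le_right _ _)))

end Pool.Agent.Y165.FA
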